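import Mathlib
import Pool.Agent.R957.Mmpp.Defs
import Pool.Agent.R957.Mmpp.Cox

/-! Q2 of MP_af8c33_pr: every Markov-modulated Poisson process has `c² ≥ 1`. -/

namespace Pool.Agent.Results.MP_af8c33_pr.CoxVariability

open Matrix Pool.R957.Mmpp

/-- For every MMPP of every order `p`, the matrix `C = Q - D` is invertible and
`(pi C 1)(pi C⁻¹ 1) ≥ 1` for the stationary vector `pi`, that is `c² ≥ 1`. -/
theorem result (p : ℕ) (M : MMPP p) (piv : Fin p → ℝ) (hp : M.IsStat piv) :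
    IsUnit M.C.det ∧ 1 ≤ (piv ⬝ᵥ (M.C *ᵥ 1)) * (piv ⬝ᵥ (M.C⁻¹ *ᵥ 1)) :=
  ⟨M.C_isUnit_det, M.cox hp⟩

end Pool.Agent.Results.MP_af8c33_pr.CoxVariability
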