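import Mathlib
import Pool.Agent.R957.Mmpp.Defs
import Pool.Agent.R957.Mmpp.Order
import Pool.Agent.R957.Mmpp.Final

/-! Q1 of MP_af8c33_pr (negated form): the stochastic order fails for some MMPP. -/

namespace Pool.Agent.Results.MP_af8c33_pr.StochasticOrderFails

open Matrix Pool.R957.Mmpp

/-- There are an MMPP (of order 20), with stationary vector `pi` and `alpha = pi D / (pi D 1)`,
and a time `t ≥ 0` such that `pi e^{Ct} 1 < alpha e^{Ct} 1`. -/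
theorem result : ∃ (p : ℕ) (M : MMPP p) (piv : Fin p → ℝ) (t : ℝ),
    M.IsStat piv ∧ 0 ≤ t ∧
    piv ⬝ᵥ (NormedSpace.exp (t • M.C) *ᵥ 1)
      < ((piv ⬝ᵥ (M.D *ᵥ 1))⁻¹ • (piv ᵥ* M.D)) ⬝ᵥ (NormedSpace.exp (t • M.C) *ᵥ 1) :=
  ⟨20, Ex.M, Ex.piv, 4, Ex.isStat, by norm_num, Ex.order_fails⟩

end Pool.Agent.Results.MP_af8c33_pr.StochasticOrderFails
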